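import Pool.Agent.R326.GP.Final

/-!
# MP_9f86c8_nt, Q1: `α < ᾱ` for geometric-progression-free sets
-/

set_option autoImplicit false

namespace Pool.Agent.Results.MP_9f86c8_nt.DensityGap

open Filter

/-- `A` contains no three-term progression `a, a k, a k²` with rational ratio `k > 1` -/
def GPFree (A : Set ℕ) : Prop :=
  ¬ ∃ a ∈ A, ∃ b ∈ A, ∃ c ∈ A, ∃ k : ℚ, 1 < k ∧ (b : ℚ) = a * k ∧ (c : ℚ) = a * k ^ 2

/-- the proportion of elements of `A` in `[1, N]` -/
noncomputable def proportion (A : Set ℕ) (N : ℕ) : ℝ := ((A ∩ Set.Icc 1 N).ncard : ℝ) / N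

/-- the asymptotic densities of the progression-free sets of positive integers which have one -/
def densities : Set ℝ :=
  {d | ∃ A : Set ℕ, (∀ a ∈ A, 0 < a) ∧ GPFree A ∧ Tendsto (proportion A) atTop (nhds d)}

/-- the upper densities of all progression-free sets of positive integers -/
def upperDensities : Set ℝ :=
  {d | ∃ A : Set ℕ, (∀ a ∈ A, 0 < a) ∧ GPFree A ∧ limsup (proportion A) atTop = d}

/-- `α` -/
noncomputable def alpha : ℝ := sSup densities

/-- `ᾱ` -/
noncomputable def alphaBar : ℝ := sSup upperDensities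

lemma gpfree_iff {A : Set ℕ} (hA : ∀ a ∈ A, 0 < a) : GPFree A ↔ R326.GP.GPFree A := by
  constructor
  · intro h a ha b hb c hc hab hbc habc
    have ha0 : (0 : ℚ) < a := by exact_mod_cast hA a ha
    refine h ⟨a, ha, b, hb, c, hc, (b : ℚ) / a, ?_, ?_, ?_⟩
    · rw [one_lt_div ha0]
      exact_mod_cast hab
    · field_simp
    · have h1 : (a : ℚ) * c = b ^ 2 := by exact_mod_cast habc
      field_simp
      linarith
  · rintro h ⟨a, ha, b, hb, c, hc, k, hk, h1, h2⟩
    have ha0 : (0 : ℚ) < a := by exact_mod_cast hA a ha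
    have hb0 : (0 : ℚ) < b := by exact_mod_cast hA b hb
    have hab : (a : ℚ) < b := by rw [h1]; nlinarith
    have hbc : (b : ℚ) < c := by
      have : (c : ℚ) = b * k := by rw [h2, h1]; ring
      rw [this]
      nlinarith
    have habc : (a : ℚ) * c = b ^ 2 := by rw [h2, h1]; ring
    exact h a ha b hb c hc (by exact_mod_cast hab) (by exact_mod_cast hbc) (by exact_mod_cast habc)

lemma proportion_eq (A : Set ℕ) : proportion A = fun N : ℕ => (R326.GP.cnt A N : ℝ) / N := by
  classical
  funext N
  unfold proportion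
  rw [R326.GP.cnt_eq]
  congr 2
  rw [← Set.ncard_coe_finset]
  congr 1
  ext n
  simp only [Set.mem_inter_iff, Set.mem_Icc, Finset.coe_filter, Finset.mem_Icc, Set.mem_ofPred_eq]
  tauto

lemma densities_eq : densities = R326.GP.densities := by
  ext d
  constructor
  · rintro ⟨A, hA, h1, h2⟩
    rw [proportion_eq] at h2
    exact ⟨A, hA, (gpfree_iff hA).1 h1, h2⟩
  · rintro ⟨A, hA, h1, h2⟩
    refine ⟨A, hA, (gpfree_iff hA).2 h1, ?_⟩
    rw [proportion_eq]
    exact h2

lemma upperDensities_eq : upperDensities = R326.GP.upperDensities := by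
  ext d
  constructor
  · rintro ⟨A, hA, h1, h2⟩
    rw [proportion_eq] at h2
    exact ⟨A, hA, (gpfree_iff hA).1 h1, h2⟩
  · rintro ⟨A, hA, h1, h2⟩
    refine ⟨A, hA, (gpfree_iff hA).2 h1, ?_⟩
    rw [proportion_eq]
    exact h2

/-- The supremum of the asymptotic densities of geometric-progression-free sets is strictly
smaller than the supremum of their upper densities (both suprema are over nonempty sets of reals
bounded above, so that they are honest suprema). -/
theorem result : (densities.Nonempty ∧ BddAbove densities) ∧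
    (upperDensities.Nonempty ∧ BddAbove upperDensities) ∧ alpha < alphaBar := by
  refine ⟨⟨?_, ?_⟩, ⟨?_, ?_⟩, ?_⟩
  · rw [densities_eq]
    exact ⟨0, R326.GP.zero_mem_densities⟩
  · rw [densities_eq]
    refine ⟨1, ?_⟩
    rintro d ⟨A, -, -, h⟩
    exact le_of_tendsto h (Eventually.of_forall (R326.GP.quot_le_one A))
  · rw [upperDensities_eq]
    exact ⟨_, ∅, fun a ha => absurd ha (Set.notMem_empty a), R326.GP.GPFree_empty, rfl⟩
  · rw [upperDensities_eq]
    exact R326.GP.bddAbove_upper
  · unfold alpha alphaBar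
    rw [densities_eq, upperDensities_eq]
    exact R326.GP.main_lt

end Pool.Agent.Results.MP_9f86c8_nt.DensityGap
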